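import Mathlib
import Pool.Agent.R493.ST.Gap
/-!
# Gaps after the primes with index in a given class, common to several classes and scales

The question asks for primes `p_(kn)` with `p_(kn) + 2` prime, for every `n`. Let any `R` classes
`c_1 mod n_1, ..., c_R mod n_R` of INDICES (`n_i ≤ m`), `R` progressions `a_i mod q_i` and `R` large scales `x_i`
(which may be of very different sizes) be given. Every large finite set `V` of multiples of the `q_i` contains a set
`W` of `L` elements such that ALL the positive differences `d` of elements of `W` are gaps at all these places: for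
every `i` there are at least `x_i / (log x_i) ^ B` indices `j ≡ c_i (mod n_i)` such that `p_j ≤ x_i`,
`p_j ≡ a_i (mod q_i)` and `p_(j+1) = p_j + d`. With `c_i = 0`: for any `n_1, ..., n_R` there are common
differences `d` such that, for each `i`, `p_(k n_i) + d` is the prime following `p_(k n_i)` for many `k`; the set of
these `d` meets the differences of every large set, so it is syndetic.

Method: exact sets of prime forms among many classes of linear forms (constant `18/5`, starting files), initial
segments with prescribed index, Ramsey's theorem for all sizes, scales and classes at once.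
-/

namespace Pool.Agent.Results.MP_be93de_nt.CommonGapsAtMultiples

open Finset Filter

/-- the `j`-th prime `p_j`, `j ≥ 1` (`p_1 = 2`) -/
noncomputable def p (j : ℕ) : ℕ := Nat.nth Nat.Prime (j - 1)

/-- the number of the indices `j ≡ c (mod n)`, `j ≥ 1`, with `p_j ≤ x`, `p_j ≡ a (mod q)` and
`p_(j+1) = p_j + d` -/
noncomputable def count (q a n c d : ℕ) (x : ℝ) : ℕ :=
  {j : ℕ | 1 ≤ j ∧ j ≡ c [MOD n] ∧ (p j : ℝ) ≤ x ∧ p j ≡ a [MOD q] ∧ p (j + 1) = p j + d}.ncard

theorem result (m : ℕ) : ∃ B : ℕ, ∀ L R : ℕ, ∃ K : ℕ, ∀ V : Finset ℕ, K ≤ V.card → ∀ Q : ℕ, ∃ x₀ : ℝ,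
    ∀ (q a n c : Fin R → ℕ) (x : Fin R → ℝ),
      (∀ i, 1 ≤ q i ∧ q i ≤ Q ∧ (a i).Coprime (q i) ∧ (∀ v ∈ V, q i ∣ v) ∧ 1 ≤ n i ∧ n i ≤ m ∧
        x₀ ≤ x i) →
      ∃ W ⊆ V, W.card = L ∧ ∀ i, ∀ u ∈ W, ∀ v ∈ W, u < v →
        x i / Real.log (x i) ^ B ≤ (count (q i) (a i) (n i) (c i) (v - u) (x i) : ℝ) :=
  Pool.Agent.R493.ST.gapsIdx m

end Pool.Agent.Results.MP_be93de_nt.CommonGapsAtMultiples
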