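import Pool.Agent.W23.SG.All
import Pool.Agent.Y886.UTA
import Pool.Agent.Y877.SxI

/-!
# MP_be93de_nt: the numbers `p_{kn} + h` for all `n`, all but few shifts `h`

For all `n` and all `K` with `n ≤ K ^ η`, and every set `S` of at least `K ^ (1 - η)` integers `k ≤ K`, for all but at most
`C n K / |S|` of the integers `h`, `|h| ≤ 2 p_{Kn}`, the number `|p_{kn} + h|` is, for at least `c |S|` of the `k ∈ S`, an
almost prime: `m s`, where `m` has only prime factors `< p_{Kn} ^ ε` and `s` is `1`, a prime or a product of two primes, all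
larger than `p_{Kn} ^ (1 / 7)`. For `S = {1, …, K}` there are at most `C n` exceptional `h`.

With PRIMES in place of almost primes: if `n ≤ log ^ A (K n)`, `|S| ≥ K / log ^ A (K n)`, `y` is between `K₀` and `K₁` times
`log log (K n)` and `M` is the product of the primes `≤ y`, then for all but `ε G` of the `g` in every window
`(g₀, g₀ + G]`, `M (g₀ + G) ≤ K n`, `G ≥ K n / (M log ^ C (K n))`, the number `p_{kn} + M g` is prime for at least
`(1 - ε) |S| / (V y log (K n))` of the `k ∈ S`.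

The proof uses two theorems of the starting library on arbitrary thin sets of primes, `W23.SG.sparse_sets` and
`Y877.SX.step`, together with a bound of the Chebyshev type for `p_{Kn}`.
-/

set_option autoImplicit false

open Finset Filter Topology

namespace Pool.Agent.Results.MP_be93de_nt.FewExceptionalShifts

/-- The `m`-th prime: `p 1 = 2`, `p 2 = 3`, `p 3 = 5`, and so on. -/
noncomputable def p (m : ℕ) : ℕ := Nat.nth Nat.Prime (m - 1)

/-- `b ≠ 0` and `|b| = m s`, where all prime factors of `m` are `< X ^ ε` and `s` has at most two prime factors, counted with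
multiplicity, all of them `> X ^ (1 / 7)` -/
def Almost (X : ℕ) (ε : ℝ) (b : ℤ) : Prop :=
  b ≠ 0 ∧ ∃ m s : ℕ, b.natAbs = m * s ∧ (∀ l : ℕ, l.Prime → l ∣ m → (l : ℝ) < (X : ℝ) ^ ε) ∧
    s.primeFactorsList.length ≤ 2 ∧ ∀ q ∈ s.primeFactors, (X : ℝ) ^ (1 / 7 : ℝ) < q

open Classical in
/-- the number of the `k ∈ S` for which `p_{kn} + h` is, up to the sign, an almost prime; `X = p_{Kn}` -/
noncomputable def R (n K : ℕ) (ε : ℝ) (S : Finset ℕ) (h : ℤ) : ℕ :=
  (S.filter (fun k : ℕ => Almost (p (K * n)) ε ((p (k * n) : ℤ) + h))).card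

/-- the product of `1 - 1/q` over the primes `q ≤ y` -/
noncomputable def V (y : ℕ) : ℝ := ∏ q ∈ (Icc 1 y).filter Nat.Prime, (1 - 1 / (q : ℝ))

/-- the number of the `k ∈ S` for which `p_{kn} + h` is prime -/
noncomputable def RP (n : ℕ) (S : Finset ℕ) (h : ℕ) : ℕ := (S.filter (fun k : ℕ => (p (k * n) + h).Prime)).card

lemma p_prime (m : ℕ) : (p m).Prime := Nat.prime_nth_prime _

lemma pi_p (m : ℕ) (hm : 1 ≤ m) : Nat.primeCounting (p m) = m := by
  unfold p
  rw [Nat.primeCounting, Nat.primeCounting', Nat.count_succ, ← Nat.primeCounting',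
    Nat.primeCounting'_nth_eq, if_pos (Nat.prime_nth_prime _)]
  omega

lemma le_p (m : ℕ) : m ≤ p m := by
  rcases Nat.eq_zero_or_pos m with h | h
  · omega
  · have h1 := pi_p m h
    have h2 : Nat.primeCounting (p m) ≤ p m := Pool.Agent.H197R2.PG.pi_le_self (p m)
    omega

lemma p_mono {a b : ℕ} (h : a ≤ b) : p a ≤ p b :=
  Nat.nth_monotone Nat.infinite_setOfPred_prime (by omega)

/-- the inequality for the exponents -/
lemma expo (η₁ c : ℝ) (hη : 0 < η₁) (hη1 : η₁ ≤ 1) (hc : 0 < c) :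
    ∃ X₀ : ℕ, ∀ X K : ℕ, X₀ ≤ X → 1 ≤ K → c * X ≤ (K : ℝ) ^ (1 + η₁ / 4) * Real.log X →
      (X : ℝ) ^ (1 - η₁) ≤ (K : ℝ) ^ (1 - η₁ / 4) := by
  have ev : ∀ᶠ u : ℝ in atTop, Real.log u + |Real.log c| ≤ η₁ / 2 * u := by
    have h1 := Real.isLittleO_log_id_atTop.bound (show (0 : ℝ) < η₁ / 4 by positivity)
    filter_upwards [h1, eventually_ge_atTop (1 : ℝ), eventually_ge_atTop (4 / η₁ * |Real.log c|)]
      with u hu hu1 hu2
    rw [Real.norm_of_nonneg (Real.log_nonneg hu1), id, Real.norm_of_nonneg (by linarith)] at hu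
    have h2 : |Real.log c| ≤ η₁ / 4 * u := by
      calc |Real.log c| = η₁ / 4 * (4 / η₁ * |Real.log c|) := by field_simp
        _ ≤ η₁ / 4 * u := mul_le_mul_of_nonneg_left hu2 (by positivity)
    linarith
  have ev2 : ∀ᶠ X : ℕ in atTop, (Real.log (Real.log X) + |Real.log c| ≤ η₁ / 2 * Real.log X) ∧ 1 ≤ Real.log X :=
    (Real.tendsto_log_atTop.comp (tendsto_natCast_atTop_atTop (R := ℝ))).eventually
      (ev.and (eventually_ge_atTop 1))
  obtain ⟨X₀, hX₀⟩ := eventually_atTop.1 ev2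
  refine ⟨max X₀ 2, fun X K hX hK h => ?_⟩
  obtain ⟨h1, h2⟩ := hX₀ X ((le_max_left _ _).trans hX)
  have hX2 : 2 ≤ X := (le_max_right _ _).trans hX
  have hX0 : (0 : ℝ) < X := by exact_mod_cast (by omega : 0 < X)
  have hK0 : (0 : ℝ) < K := by exact_mod_cast hK
  set L := Real.log X with hL
  have h3 := Real.log_le_log (by positivity) h
  rw [Real.log_mul hc.ne' hX0.ne', Real.log_mul (by positivity) (by positivity), Real.log_rpow hK0, ← hL] at h3
  set k := Real.log K with hk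
  have hk0 : 0 ≤ k := Real.log_natCast_nonneg K
  rw [← Real.log_le_log_iff (by positivity) (by positivity), Real.log_rpow hX0, Real.log_rpow hK0, ← hL, ← hk]
  have h4 : -|Real.log c| ≤ Real.log c := neg_abs_le _
  -- `(1 + η/4) k ≥ (1 - η/2) L`
  have h5 : (1 - η₁ / 2) * L ≤ (1 + η₁ / 4) * k := by linarith
  have h6 : (1 - η₁) * L * (1 + η₁ / 4) ≤ (1 - η₁ / 4) * k * (1 + η₁ / 4) := by
    have h7 : (1 - η₁ / 4) * ((1 - η₁ / 2) * L) ≤ (1 - η₁ / 4) * ((1 + η₁ / 4) * k) :=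
      mul_le_mul_of_nonneg_left h5 (by linarith)
    have h8 : (1 - η₁) * L * (1 + η₁ / 4) ≤ (1 - η₁ / 4) * ((1 - η₁ / 2) * L) := by
      have h9 : 0 ≤ η₁ ^ 2 * L := by positivity
      nlinarith
    calc (1 - η₁) * L * (1 + η₁ / 4) ≤ (1 - η₁ / 4) * ((1 - η₁ / 2) * L) := h8
      _ ≤ (1 - η₁ / 4) * ((1 + η₁ / 4) * k) := h7
      _ = _ := by ring
  exact le_of_mul_le_mul_right h6 (by linarith)

lemma p_inj (n : ℕ) (hn : 1 ≤ n) (K : ℕ) (S : Finset ℕ) (hS : S ⊆ Icc 1 K) :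
    Set.InjOn (fun k : ℕ => p (k * n)) (S : Set ℕ) := by
  intro a ha b hb hab
  have ha1 := (mem_Icc.1 (hS ha)).1
  have hb1 := (mem_Icc.1 (hS hb)).1
  simp only at hab
  have h4 := pi_p (a * n) (Nat.mul_pos ha1 hn)
  have h5 := pi_p (b * n) (Nat.mul_pos hb1 hn)
  rw [hab, h5] at h4
  exact (Nat.eq_of_mul_eq_mul_right (by omega) h4).symm

open Classical in
/-- **Almost primes `p_{kn} + h` for all `n` and all but few `h`.** -/
theorem part1 (ε : ℝ) (hε : 0 < ε) : ∃ c C η : ℝ, 0 < c ∧ 0 < C ∧ 0 < η ∧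
    ∀ n K : ℕ, 1 ≤ n → (n : ℝ) ≤ (K : ℝ) ^ η → ∀ S : Finset ℕ, S ⊆ Icc 1 K →
      (K : ℝ) ^ (1 - η) ≤ S.card →
      (((Icc (-(2 * p (K * n) : ℤ)) (2 * p (K * n))).filter (fun h : ℤ =>
        (R n K ε S h : ℝ) < c * S.card)).card : ℝ) ≤ C * (n * K / S.card) := by
  obtain ⟨c₁, C₁, η₁, hc₁, hη₁, H⟩ := Pool.Agent.W23.SG.sparse_sets ε hε
  obtain ⟨c₀, hc₀, hc₀4, hch⟩ := Pool.Agent.Y886.UT.cheb
  set η₂ : ℝ := min η₁ 1 with hη₂
  have hη₂0 : 0 < η₂ := lt_min hη₁ one_pos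
  have hη₂1 : η₂ ≤ 1 := min_le_right _ _
  obtain ⟨X₀, hX₀⟩ := expo η₂ c₀ hη₂0 hη₂1 hc₀
  set C₂ : ℝ := max C₁ 0 with hC₂
  have hC₂0 : 0 ≤ C₂ := le_max_right _ _
  refine ⟨c₁, C₂ / c₀ + (4 * X₀ + 1), η₂ / 4, hc₁, by positivity, by positivity, ?_⟩
  intro n K hn hnK S hS hSK
  have hn0 : (1 : ℝ) ≤ n := by exact_mod_cast hn
  have hK : 1 ≤ K := by
    by_contra h
    have h0 : K = 0 := by omega
    rw [h0, Nat.cast_zero, Real.zero_rpow (by positivity)] at hnK
    linarith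
  have hK1 : (1 : ℝ) ≤ K := by exact_mod_cast hK
  have hScard : S.card ≤ K := by
    have := card_le_card hS
    rwa [Nat.card_Icc, Nat.add_sub_cancel] at this
  have hScardR : (S.card : ℝ) ≤ K := by exact_mod_cast hScard
  have hS0 : (0 : ℝ) < S.card :=
    lt_of_lt_of_le (Real.rpow_pos_of_pos (by linarith) _) hSK
  set X := p (K * n) with hX
  have hKn : 1 ≤ K * n := Nat.mul_pos hK hn
  have hX2 : 2 ≤ X := (p_prime _).two_le
  have hX2R : (2 : ℝ) ≤ X := by exact_mod_cast hX2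
  have hLX : 0 < Real.log X := Real.log_pos (by linarith)
  have hnKS : 1 ≤ (n : ℝ) * K / S.card := by
    rw [le_div_iff₀ hS0]
    nlinarith
  rcases Nat.lt_or_ge X X₀ with hlt | hge
  · -- small `X`
    have h2 := Finset.card_filter_le (Icc (-(2 * X : ℤ)) (2 * X)) (fun h : ℤ =>
      (R n K ε S h : ℝ) < c₁ * S.card)
    rw [Int.card_Icc] at h2
    have h3 : (2 * (X : ℤ) + 1 - -(2 * X)).toNat ≤ 4 * X₀ + 1 := by omega
    have h4 : (((Icc (-(2 * X : ℤ)) (2 * X)).filter (fun h : ℤ =>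
        (R n K ε S h : ℝ) < c₁ * S.card)).card : ℝ) ≤ 4 * X₀ + 1 := by exact_mod_cast h2.trans h3
    refine h4.trans ?_
    have h5 : (0 : ℝ) ≤ C₂ / c₀ := by positivity
    have h6 : (0 : ℝ) ≤ 4 * X₀ + 1 := by positivity
    calc (4 * X₀ + 1 : ℝ) ≤ C₂ / c₀ + (4 * X₀ + 1) := by linarith
      _ ≤ (C₂ / c₀ + (4 * X₀ + 1)) * (n * K / S.card) := le_mul_of_one_le_right (by positivity) hnKS
  · -- Chebyshev
    have h1 : c₀ * X ≤ K * n * Real.log X := by
      have h2 := hch X hX2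
      rw [hX, pi_p _ hKn] at h2
      push_cast at h2
      rw [hX]
      exact h2
    have h2 : c₀ * X ≤ (K : ℝ) ^ (1 + η₂ / 4) * Real.log X := by
      refine h1.trans (mul_le_mul_of_nonneg_right ?_ hLX.le)
      rw [Real.rpow_add (by linarith), Real.rpow_one]
      exact mul_le_mul_of_nonneg_left hnK (by linarith)
    have h3 : (X : ℝ) ^ (1 - η₁) ≤ S.card := by
      refine le_trans ?_ ((hX₀ X K hge hK h2).trans hSK)
      exact Real.rpow_le_rpow_of_exponent_le (by linarith) (by linarith [min_le_left η₁ 1])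
    -- the set of primes
    have hinj : Set.InjOn (fun k : ℕ => p (k * n)) (S : Set ℕ) := p_inj n hn K S hS
    have hcard : (S.image (fun k : ℕ => p (k * n))).card = S.card := card_image_of_injOn hinj
    have hprime : ∀ q ∈ S.image (fun k : ℕ => p (k * n)), q.Prime ∧ q ≤ X := by
      intro q hq
      obtain ⟨k, hk, rfl⟩ := mem_image.1 hq
      exact ⟨p_prime _, p_mono (Nat.mul_le_mul_right n (mem_Icc.1 (hS hk)).2)⟩
    have main := H X hX2 (S.image (fun k : ℕ => p (k * n))) hprime (by rw [hcard]; exact h3)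
    rw [hcard] at main
    have hcmp : ((Icc (-(2 * X : ℤ)) (2 * X)).filter (fun h : ℤ =>
        (R n K ε S h : ℝ) < c₁ * S.card)).card ≤
      ((Icc (-(2 * X : ℤ)) (2 * X)).filter (fun N : ℤ => (((S.image (fun k : ℕ => p (k * n))).filter (fun q : ℕ =>
        (q : ℤ) ≠ N ∧ ∃ m s : ℕ, (N - q).natAbs = m * s ∧
          (∀ l : ℕ, l.Prime → l ∣ m → (l : ℝ) < (X : ℝ) ^ ε) ∧
          s.primeFactorsList.length ≤ 2 ∧
          ∀ q ∈ s.primeFactors, (X : ℝ) ^ (1 / 7 : ℝ) < q)).card : ℝ) < c₁ * S.card)).card := by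
      apply card_le_card_of_injOn (fun h => -h)
      · intro h hh
        rw [mem_coe, mem_filter, mem_Icc] at hh
        rw [mem_coe, mem_filter, mem_Icc]
        obtain ⟨⟨h4, h5⟩, h6⟩ := hh
        refine ⟨⟨by show -(2 * (X : ℤ)) ≤ -h; omega, by show -h ≤ 2 * (X : ℤ); omega⟩, lt_of_le_of_lt ?_ h6⟩
        have h7 : ((S.image (fun k : ℕ => p (k * n))).filter (fun q : ℕ =>
          (q : ℤ) ≠ -h ∧ ∃ m s : ℕ, (-h - q).natAbs = m * s ∧
            (∀ l : ℕ, l.Prime → l ∣ m → (l : ℝ) < (X : ℝ) ^ ε) ∧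
            s.primeFactorsList.length ≤ 2 ∧
            ∀ q ∈ s.primeFactors, (X : ℝ) ^ (1 / 7 : ℝ) < q)) ⊆
            (S.filter (fun k => Almost X ε ((p (k * n) : ℤ) + h))).image (fun k : ℕ => p (k * n)) := by
          intro q hq
          rw [mem_filter] at hq
          obtain ⟨hq1, hq2, m, s, hms, hm, hs, hq3⟩ := hq
          obtain ⟨k, hkS, rfl⟩ := mem_image.1 hq1
          rw [mem_image]
          refine ⟨k, ?_, rfl⟩
          rw [mem_filter]
          refine ⟨hkS, by intro h0; apply hq2; omega, m, s, ?_, hm, hs, hq3⟩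
          rw [← hms]
          omega
        have h8 := (card_le_card h7).trans card_image_le
        unfold R
        rw [← hX]
        exact_mod_cast h8
      · intro a _ b _ hab
        exact neg_injective hab
    have h4 : (((Icc (-(2 * X : ℤ)) (2 * X)).filter (fun h : ℤ =>
        (R n K ε S h : ℝ) < c₁ * S.card)).card : ℝ) ≤ C₁ * (X / (S.card * Real.log X)) :=
      (by exact_mod_cast hcmp : _ ≤ _).trans main
    refine h4.trans ?_
    have h5 : (X : ℝ) / (S.card * Real.log X) ≤ 1 / c₀ * (n * K / S.card) := by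
      rw [div_le_iff₀ (by positivity)]
      have e1 : 1 / c₀ * (n * K / S.card) * (S.card * Real.log X) = (K * n * Real.log X) / c₀ := by
        field_simp
      rw [e1, le_div_iff₀ hc₀]
      linarith
    calc C₁ * (X / (S.card * Real.log X)) ≤ C₂ * (X / (S.card * Real.log X)) :=
          mul_le_mul_of_nonneg_right (le_max_left _ _) (by positivity)
      _ ≤ C₂ * (1 / c₀ * (n * K / S.card)) := mul_le_mul_of_nonneg_left h5 hC₂0
      _ = C₂ / c₀ * (n * K / S.card) := by ring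
      _ ≤ (C₂ / c₀ + (4 * X₀ + 1)) * (n * K / S.card) := by
          apply mul_le_mul_of_nonneg_right _ (by positivity)
          have : (0 : ℝ) ≤ 4 * X₀ + 1 := by positivity
          linarith

/-- **Primes `p_{kn} + M g` for almost all multiples of a small primorial.** -/
theorem part2 (A C : ℕ) (ε : ℝ) (hε : 0 < ε) (hε1 : ε ≤ 1) : ∃ K₀ : ℕ, ∀ K₁ : ℕ, ∃ N₀ : ℕ,
    ∀ n K N : ℕ, 1 ≤ n → N = K * n → N₀ ≤ N → (n : ℝ) ≤ Real.log N ^ A →
      ∀ S : Finset ℕ, S ⊆ Icc 1 K → (K : ℝ) ≤ S.card * Real.log N ^ A →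
      ∀ y : ℕ, K₀ * Real.log (Real.log N) ≤ y → y ≤ K₁ * Real.log (Real.log N) →
      ∀ g₀ G : ℕ, primorial y * (g₀ + G) ≤ N → (N : ℝ) ≤ primorial y * G * Real.log N ^ C →
      (((Icc 1 G).filter (fun g => (RP n S (primorial y * (g₀ + g)) : ℝ) <
        (1 - ε) * (S.card / (V y * Real.log N)))).card : ℝ) ≤ ε * G := by
  obtain ⟨K₀, hK₀⟩ := Pool.Agent.Y877.SX.step 1 (Or.inl rfl) (2 * A) 2 C ε hε hε1
  refine ⟨K₀, fun K₁ => ?_⟩
  obtain ⟨n2, hn2⟩ := hK₀ K₁
  obtain ⟨n4, hn4⟩ := Pool.Agent.Y877.SX.nth_le_log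
  refine ⟨max n2 n4, ?_⟩
  intro n K N hn hN hN0 hnA S hS hSK y hy1 hy2 g₀ G hg1 hg2
  have b2 : n2 ≤ N := (le_max_left _ _).trans hN0
  have b4 : n4 ≤ N := (le_max_right _ _).trans hN0
  have hJ : (N : ℝ) ≤ S.card * Real.log N ^ (2 * A) := by
    have h1 : (N : ℝ) = K * n := by rw [hN]; push_cast; ring
    have h2 : (0 : ℝ) ≤ n := Nat.cast_nonneg _
    have h3 : (0 : ℝ) ≤ S.card * Real.log N ^ A := le_trans (Nat.cast_nonneg _) hSK
    calc (N : ℝ) = K * n := h1
      _ ≤ (S.card * Real.log N ^ A) * Real.log N ^ A := mul_le_mul hSK hnA h2 h3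
      _ = S.card * Real.log N ^ (2 * A) := by ring
  have h1 := hn2 N b2 y hy1 hy2 S hJ (fun k => p (k * n)) (p_inj n hn K S hS)
    (fun k hk => ⟨p_prime _, hn4 N b4 (k * n - 1) (by
      have := (mem_Icc.1 (hS hk)).2
      have h2 : k * n ≤ K * n := Nat.mul_le_mul_right n this
      omega)⟩) g₀ G (by rw [pow_one]; exact hg1) (by rw [pow_one]; exact hg2)
  refine le_trans (le_of_eq ?_) h1
  congr 2
  apply filter_congr
  intro g _
  simp only [pow_one, Nat.cast_one, one_mul]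
  rfl

open Classical in
/-- **The numbers `p_{kn} + h` for all but few shifts `h`.** (1) For every `ε > 0` there are `c, C, η > 0` such that for all
`n ≥ 1` and `K` with `n ≤ K ^ η` and every set `S` of at least `K ^ (1 - η)` integers `1 ≤ k ≤ K`: for all but at most
`C n K / |S|` of the integers `h`, `|h| ≤ 2 p_{Kn}`, there are at least `c |S|` elements `k` of `S` with
`Almost p_{Kn} ε (p_{kn} + h)`. (2) The statement with primes for almost all multiples of a small primorial. -/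
theorem result :
    (∀ ε : ℝ, 0 < ε → ∃ c C η : ℝ, 0 < c ∧ 0 < C ∧ 0 < η ∧
      ∀ n K : ℕ, 1 ≤ n → (n : ℝ) ≤ (K : ℝ) ^ η → ∀ S : Finset ℕ, S ⊆ Icc 1 K →
        (K : ℝ) ^ (1 - η) ≤ S.card →
        (((Icc (-(2 * p (K * n) : ℤ)) (2 * p (K * n))).filter (fun h : ℤ =>
          (R n K ε S h : ℝ) < c * S.card)).card : ℝ) ≤ C * (n * K / S.card)) ∧
    (∀ (A C : ℕ) (ε : ℝ), 0 < ε → ε ≤ 1 → ∃ K₀ : ℕ, ∀ K₁ : ℕ, ∃ N₀ : ℕ,
      ∀ n K N : ℕ, 1 ≤ n → N = K * n → N₀ ≤ N → (n : ℝ) ≤ Real.log N ^ A →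
        ∀ S : Finset ℕ, S ⊆ Icc 1 K → (K : ℝ) ≤ S.card * Real.log N ^ A →
        ∀ y : ℕ, K₀ * Real.log (Real.log N) ≤ y → y ≤ K₁ * Real.log (Real.log N) →
        ∀ g₀ G : ℕ, primorial y * (g₀ + G) ≤ N → (N : ℝ) ≤ primorial y * G * Real.log N ^ C →
        (((Icc 1 G).filter (fun g => (RP n S (primorial y * (g₀ + g)) : ℝ) <
          (1 - ε) * (S.card / (V y * Real.log N)))).card : ℝ) ≤ ε * G) :=
  ⟨part1, part2⟩

end Pool.Agent.Results.MP_be93de_nt.FewExceptionalShifts
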