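import Mathlib
import Pool.Agent.R960.Fam.Idx3

set_option autoImplicit false

/-!
# Twins `p_{k n}`, `p_{k² n}` in random models of the primes

The integers are decided one after the other; no independence is assumed.  Fix a finite set `Q` of
primes; multiples of the primes of `Q` are never chosen and the other integers `n + 1` are chosen with
conditional probability `(1 + o(1)) ∏_{p ∈ Q} (1 - 1/p)⁻¹ / log n`.  Let `p_m` be the `m`-th chosen integer.
Almost surely, for every exponent `d ≥ 1` and uniformly in `(log n)³ ≤ K ≤ n`, the number of `k ≤ K` such that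
`p_{k^d n} + 2` is chosen too is `(𝔖 + o(1)) ∑_{k ≤ K} 1 / log (p_{k^d n} + 2)`, where `𝔖 > 0` is the product of the
Hardy and Littlewood factors of the primes of `Q`.  In particular for all large `n` there is such a
`k ≤ (log n)³ + 1`.
-/

open MeasureTheory Filter
open scoped Topology

namespace Pool.Agent.Results.MP_be93de_nt.IndicesInSievedModels

/-- the conditional probability that `n + 1` is chosen, given the information up to `n` -/
noncomputable def density {Ω : Type} {mΩ : MeasurableSpace Ω} (μ : Measure Ω) (ℱ : Filtration ℕ mΩ)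
    (A : ℕ → Set Ω) (n : ℕ) : Ω → ℝ := μ[(A (n + 1)).indicator (fun _ => (1 : ℝ)) | ℱ n]

/-- the `m`-th element of `S` in increasing order, `m ≥ 1` -/
noncomputable def pr (S : Set ℕ) (m : ℕ) : ℕ := Nat.nth (· ∈ S) (m - 1)

/-- the number of `k` with `1 ≤ k ≤ K` such that `p_{k^d n} + 2` is in `S` -/
noncomputable def hits (S : Set ℕ) (d n K : ℕ) : ℕ := {k : ℕ | (1 ≤ k ∧ k ≤ K) ∧ pr S (k ^ d * n) + 2 ∈ S}.ncard

/-- the sum of `1 / log (p_{k^d n} + 2)` over `1 ≤ k ≤ K` -/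
noncomputable def weight (S : Set ℕ) (d n K : ℕ) : ℝ :=
  ∑ k ∈ Finset.Icc 1 K, 1 / Real.log ((pr S (k ^ d * n) + 2 : ℕ) : ℝ)

/-- the Hardy and Littlewood factors of the primes of `Q` for twins -/
noncomputable def twinFactor (Q : Finset ℕ) : ℝ :=
  ∏ p ∈ Q, (1 - (if p = 2 then 1 else 2) / (p : ℝ)) / (1 - 1 / (p : ℝ)) ^ 2

lemma factor_eq (Q : Finset ℕ) (hQ : ∀ p ∈ Q, p.Prime) : Pool.Agent.R528.RM.singH Q {0, 2} = twinFactor Q := by
  unfold Pool.Agent.R528.RM.singH twinFactor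
  refine Finset.prod_congr rfl fun p hp => ?_
  have h1 : Pool.Agent.R528.RM.occ {0, 2} p = if p = 2 then 1 else 2 := by
    unfold Pool.Agent.R528.RM.occ
    rw [Finset.image_insert, Finset.image_singleton, Nat.zero_mod]
    split_ifs with h
    · subst h
      rfl
    · have h2 : 2 % p ≠ 0 := by
        intro h3
        have h4 := Nat.dvd_of_mod_eq_zero h3
        have h5 := Nat.le_of_dvd (by norm_num) h4
        have h6 := (hQ p hp).two_le
        omega
      rw [Finset.card_insert_of_notMem (by simpa using h2.symm), Finset.card_singleton]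
  rw [h1, show ({0, 2} : Finset ℕ).card = 2 from rfl]
  split_ifs <;> norm_num

lemma factor_pos (Q : Finset ℕ) (hQ : ∀ p ∈ Q, p.Prime) : 0 < twinFactor Q := by
  refine Finset.prod_pos fun p hp => ?_
  have h2 : (2 : ℝ) ≤ p := by exact_mod_cast (hQ p hp).two_le
  have hp0 : (0 : ℝ) < p := by linarith
  have h3 : 0 < 1 - 1 / (p : ℝ) := by
    rw [sub_pos, div_lt_one hp0]
    linarith
  refine div_pos ?_ (by positivity)
  split_ifs with h
  · exact h3
  · have h4 : 3 ≤ p := by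
      have h5 := (hQ p hp).two_le
      omega
    have h4' : (3 : ℝ) ≤ p := by exact_mod_cast h4
    rw [sub_pos, div_lt_one hp0]
    linarith

/-- the set of indices, counted from `0` -/
def JJ (d n K : ℕ) : Finset ℕ := (Finset.Icc 1 K).image fun k => k ^ d * n - 1

lemma JJ_inj {d n : ℕ} (hd : 1 ≤ d) (hn : 1 ≤ n) (K : ℕ) :
    Set.InjOn (fun k => k ^ d * n - 1) (Finset.Icc 1 K : Finset ℕ) := by
  intro k hk l hl h
  have hk1 := (Finset.mem_Icc.1 (Finset.mem_coe.1 hk)).1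
  have hl1 := (Finset.mem_Icc.1 (Finset.mem_coe.1 hl)).1
  have h1 : 1 ≤ k ^ d * n := Nat.mul_pos (Nat.pow_pos (by omega)) hn
  have h2 : 1 ≤ l ^ d * n := Nat.mul_pos (Nat.pow_pos (by omega)) hn
  have h3 : k ^ d * n = l ^ d * n := by
    have h' : k ^ d * n - 1 = l ^ d * n - 1 := h
    omega
  have h4 : k ^ d = l ^ d := Nat.eq_of_mul_eq_mul_right hn h3
  exact Nat.pow_left_injective (by omega) h4

end Pool.Agent.Results.MP_be93de_nt.IndicesInSievedModels

open Pool.Agent.Results.MP_be93de_nt.IndicesInSievedModels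

theorem Pool.Agent.Results.MP_be93de_nt.IndicesInSievedModels.result
    {Ω : Type} [mΩ : MeasurableSpace Ω] (μ : Measure Ω) [IsProbabilityMeasure μ]
    (ℱ : Filtration ℕ mΩ) (A : ℕ → Set Ω) (hA : ∀ n, MeasurableSet[ℱ n] (A n))
    (Q : Finset ℕ) (hQ : ∀ p ∈ Q, p.Prime) (hcop : ∀ n, (∃ p ∈ Q, p ∣ n) → A n = ∅)
    (hd : ∀ᵐ ω ∂μ, Tendsto (fun n : ℕ => density μ ℱ A n ω * Real.log n)
        (atTop ⊓ 𝓟 {n : ℕ | ∀ p ∈ Q, ¬ p ∣ n + 1}) (𝓝 (∏ p ∈ Q, (1 - 1 / (p : ℝ))⁻¹))) :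
    0 < twinFactor Q ∧
    ∀ᵐ ω ∂μ, {a | ω ∈ A a}.Infinite ∧ ∀ d : ℕ, 1 ≤ d →
      (∀ ε : ℝ, 0 < ε → ∀ᶠ n : ℕ in atTop, ∀ K : ℕ, K ≤ n → Real.log n ^ 3 ≤ K →
        |(hits {a | ω ∈ A a} d n K : ℝ) - twinFactor Q * weight {a | ω ∈ A a} d n K| ≤
          ε * weight {a | ω ∈ A a} d n K) ∧
      ∀ᶠ n : ℕ in atTop, ∃ k : ℕ, 1 ≤ k ∧ (k : ℝ) ≤ Real.log n ^ 3 + 1 ∧
        ω ∈ A (pr {a | ω ∈ A a} (k ^ d * n)) ∧ ω ∈ A (pr {a | ω ∈ A a} (k ^ d * n) + 2) := by
  classical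
  refine ⟨factor_pos Q hQ, ?_⟩
  have main : ∀ᵐ ω ∂μ, ∀ d : ℕ, 1 ≤ d → {a | ω ∈ A a}.Infinite ∧ ∀ ε : ℝ, 0 < ε → ∀ᶠ n : ℕ in atTop, ∀ K : ℕ, K ≤ n →
      Real.log n ^ 3 ≤ K →
        |(hits {a | ω ∈ A a} d n K : ℝ) - twinFactor Q * weight {a | ω ∈ A a} d n K| ≤
          ε * weight {a | ω ∈ A a} d n K := by
    rw [ae_all_iff]
    intro d
    by_cases hd1 : 1 ≤ d
    swap
    · exact Eventually.of_forall fun ω h => absurd h hd1
    set Φ : ℕ → Finset (ℕ × ℕ) := fun n => ({n} : Finset ℕ) ×ˢ (Finset.range (n + 1)).filter (fun K : ℕ => Real.log n ^ 3 ≤ K) with hΦ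
    have hmem : ∀ n, ∀ a ∈ Φ n, a.1 = n ∧ a.2 ≤ n ∧ Real.log n ^ 3 ≤ (a.2 : ℝ) := by
      intro x a ha
      obtain ⟨h1, h2⟩ := Finset.mem_product.1 ha
      obtain ⟨h3, h4⟩ := Finset.mem_filter.1 h2
      refine ⟨Finset.mem_singleton.1 h1, by have := Finset.mem_range.1 h3; omega, h4⟩
    have hc : ∀ᶠ n : ℕ in atTop, (Φ n).card ≤ n ^ 2 := by
      filter_upwards [eventually_ge_atTop 2] with x hx
      have h1 : (Φ x).card ≤ x + 1 := by
        simp only [hΦ, Finset.card_product, Finset.card_singleton, one_mul]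
        refine (Finset.card_filter_le _ _).trans ?_
        rw [Finset.card_range]
      nlinarith
    have key := Pool.Agent.R960.Fam.det_idx (μ := μ) hA Q hQ hcop hd 2 (d + 1) Φ hc (fun a => JJ d a.1 a.2) (fun n => n - 1)
      (tendsto_sub_atTop_nat 1)
      (by
        filter_upwards [eventually_ge_atTop 2] with n hn a ha j hj
        obtain ⟨h1, h2, h3⟩ := hmem n a ha
        unfold JJ at hj
        obtain ⟨k, hk, rfl⟩ := Finset.mem_image.1 hj
        obtain ⟨hk1, hk2⟩ := Finset.mem_Icc.1 hk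
        rw [h1]
        have h4 : 1 ≤ k ^ d := Nat.one_le_pow _ _ hk1
        have h5 : n ≤ k ^ d * n := Nat.le_mul_of_pos_left n h4
        have h6 : k ^ d * n ≤ n ^ d * n := Nat.mul_le_mul_right _ (Nat.pow_le_pow_left (by omega) d)
        have h7 : n ^ (d + 1) = n ^ d * n := pow_succ _ _
        omega)
      (by
        filter_upwards [eventually_ge_atTop 2] with n hn a ha
        obtain ⟨h1, h2, h3⟩ := hmem n a ha
        unfold JJ
        rw [h1, Finset.card_image_of_injOn (JJ_inj hd1 (by omega) a.2)]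
        simpa using h3)
    filter_upwards [key] with ω hω _
    refine ⟨hω.1, fun ε hε => ?_⟩
    filter_upwards [hω.2 ε hε, eventually_ge_atTop 2] with n h1 hn K hK1 hK2
    have h2 := h1 (n, K) (by
      simp only [hΦ, Finset.mem_product, Finset.mem_singleton, Finset.mem_filter, Finset.mem_range, true_and]
      exact ⟨by omega, hK2⟩)
    set S := {a | ω ∈ A a} with hS
    change |({j | j ∈ JJ d n K ∧ Pool.Agent.R960.Fam.en S j + 2 ∈ S}.ncard : ℝ) - Pool.Agent.R528.RM.singH Q {0, 2} *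
      ∑ j ∈ JJ d n K, 1 / Real.log ((Pool.Agent.R960.Fam.en S j + 2 : ℕ) : ℝ)| ≤
      ε * ∑ j ∈ JJ d n K, 1 / Real.log ((Pool.Agent.R960.Fam.en S j + 2 : ℕ) : ℝ) at h2
    have hinj := JJ_inj hd1 (by omega : 1 ≤ n) K
    have hpr : ∀ k, Pool.Agent.R960.Fam.en S (k ^ d * n - 1) = pr S (k ^ d * n) := fun k => rfl
    have e1 : ∑ j ∈ JJ d n K, 1 / Real.log ((Pool.Agent.R960.Fam.en S j + 2 : ℕ) : ℝ) = weight S d n K := by
      unfold JJ weight
      rw [Finset.sum_image (fun k hk l hl h => hinj (Finset.mem_coe.2 hk) (Finset.mem_coe.2 hl) h)]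
      exact Finset.sum_congr rfl fun k _ => by rw [hpr]
    have e2 : {j | j ∈ JJ d n K ∧ Pool.Agent.R960.Fam.en S j + 2 ∈ S}.ncard = hits S d n K := by
      unfold hits
      have h3 : {j | j ∈ JJ d n K ∧ Pool.Agent.R960.Fam.en S j + 2 ∈ S} =
          (fun k => k ^ d * n - 1) '' {k : ℕ | (1 ≤ k ∧ k ≤ K) ∧ pr S (k ^ d * n) + 2 ∈ S} := by
        ext j
        unfold JJ
        simp only [Set.mem_ofPred_eq, Finset.mem_image, Finset.mem_Icc, Set.mem_image]
        constructor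
        · rintro ⟨⟨k, hk, rfl⟩, h4⟩
          exact ⟨k, ⟨hk, by rwa [hpr] at h4⟩, rfl⟩
        · rintro ⟨k, ⟨hk, h4⟩, rfl⟩
          exact ⟨⟨k, hk, rfl⟩, by rwa [hpr]⟩
      rw [h3, Set.InjOn.ncard_image]
      intro k hk l hl h
      exact hinj (Finset.mem_coe.2 (Finset.mem_Icc.2 hk.1)) (Finset.mem_coe.2 (Finset.mem_Icc.2 hl.1)) h
    rw [e1, e2, factor_eq Q hQ] at h2
    exact h2
  filter_upwards [main] with ω hω
  refine ⟨(hω 1 le_rfl).1, fun d hd1 => ⟨(hω d hd1).2, ?_⟩⟩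
  have hf := factor_pos Q hQ
  have hS := (hω d hd1).1
  have t2 : ∀ᶠ n : ℕ in atTop, Real.log n ^ 3 + 1 ≤ n := by
    have h0 : Tendsto (fun x : ℝ => Real.log x ^ (3 : ℝ) / x ^ (1 : ℝ)) atTop (𝓝 0) :=
      (isLittleO_log_rpow_rpow_atTop (3 : ℝ) one_pos).tendsto_div_nhds_zero
    have h1 := h0.comp tendsto_natCast_atTop_atTop
    filter_upwards [h1.eventually_le_const (show (0 : ℝ) < 1 / 2 by norm_num), eventually_ge_atTop 4] with N hN hN4
    have hN0 : (4 : ℝ) ≤ N := by exact_mod_cast hN4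
    simp only [Function.comp_apply, Real.rpow_one] at hN
    rw [div_le_iff₀ (by linarith)] at hN
    have h3 : Real.log (N : ℝ) ^ (3 : ℝ) = Real.log N ^ 3 := by
      rw [← Real.rpow_natCast]
      norm_num
    rw [h3] at hN
    linarith
  filter_upwards [(hω d hd1).2 (twinFactor Q / 2) (by positivity), t2, eventually_ge_atTop 3] with n h1 h2 hn
  have hn3 : (3 : ℝ) ≤ n := by exact_mod_cast hn
  have hlog : 0 < Real.log (n : ℝ) := Real.log_pos (by linarith)
  set K := ⌈Real.log (n : ℝ) ^ 3⌉₊ with hK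
  have h4 : Real.log (n : ℝ) ^ 3 ≤ K := Nat.le_ceil _
  have h5 : (K : ℝ) < Real.log (n : ℝ) ^ 3 + 1 := Nat.ceil_lt_add_one (by positivity)
  have h6 : K ≤ n := by
    have : (K : ℝ) ≤ n := by linarith
    exact_mod_cast this
  have h7 := h1 K h6 h4
  have hK1 : 1 ≤ K := by
    have : (0 : ℝ) < K := lt_of_lt_of_le (by positivity) h4
    exact_mod_cast this
  have hw : 0 < weight {a | ω ∈ A a} d n K := by
    unfold weight
    refine Finset.sum_pos (fun k _ => ?_) ⟨1, Finset.mem_Icc.2 ⟨le_rfl, hK1⟩⟩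
    have : (1 : ℝ) < ((pr {a | ω ∈ A a} (k ^ d * n) + 2 : ℕ) : ℝ) := by
      exact_mod_cast (by omega : 1 < pr {a | ω ∈ A a} (k ^ d * n) + 2)
    exact one_div_pos.2 (Real.log_pos this)
  have h8 : hits {a | ω ∈ A a} d n K ≠ 0 := by
    intro h9
    rw [h9] at h7
    simp only [Nat.cast_zero, zero_sub, abs_neg] at h7
    rw [abs_of_pos (mul_pos hf hw)] at h7
    nlinarith [mul_pos hf hw]
  have h9 : {k : ℕ | (1 ≤ k ∧ k ≤ K) ∧ pr {a | ω ∈ A a} (k ^ d * n) + 2 ∈ {a | ω ∈ A a}}.Nonempty := by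
    by_contra hne
    rw [Set.not_nonempty_iff_eq_empty] at hne
    apply h8
    unfold hits
    rw [hne, Set.ncard_empty]
  obtain ⟨k, ⟨hk1, hk2⟩, hk3⟩ := h9
  refine ⟨k, hk1, ?_, ?_, hk3⟩
  · have : (k : ℝ) ≤ K := by exact_mod_cast hk2
    linarith
  · exact Pool.Agent.R960.Fam.en_mem hS (k ^ d * n - 1)
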