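import Mathlib
import Pool.Agent.R494.OT4
/-!
# The primes with index a multiple of `n`: classes, mutual quadratic residuacity, bounded gaps

The question is about the primes `p_(kn)` with index a multiple of `n`. Fix `n`, a class `e` of indices and offsets
`o_0 < ... < o_k`; for instance `e = 0` and `o_i = i n`, which gives `k + 1` successive primes with index a multiple of
`n`. A pattern is a choice of a class modulo `m` in a given set `A` of reduced classes for each of the primes
`p_(j+o_0), ..., p_(j+o_k)` and a graph which tells, for `i < i'`, whether the prime `p_(j+o_i')` is a quadratic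
residue modulo `p_(j+o_i)`. There are `|A| ^ (k+1) 2 ^ ((k+1) choose 2)` patterns. At least the proportion
`1 / (T choose k+1)` of them, `T = 40 (2 K + 1) (K + 1)`, `K = o_k + n`, occurs for infinitely many `j ≡ e (mod n)`,
with `p_(j+o_k) - p_j` bounded. The proportion depends neither on the modulus `m` nor on `A`.

Method: exact sets of prime values, with few repetitions in the groups, of forms at prescribed positions (starting
files); positions in the wanted classes whose differences have private prime factors, and a residue class modulo `q`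
in which all the symbols of the values are prescribed; index classes by the pigeonhole principle in the block; a
double count of the pairs (colouring, graph) on `T` groups.
-/

namespace Pool.Agent.Results.MP_be93de_nt.OffsetTuples

open Finset

/-- the `j`-th prime `p_j`, `j ≥ 1` (`p_1 = 2`) -/
noncomputable def p (j : ℕ) : ℕ := Nat.nth Nat.Prime (j - 1)

/-- the patterns `(α, G)` with `α i ∈ A` for which there is `C` such that infinitely many `j ≡ e (mod n)` satisfy
`p_(j+o_i) ≡ α i (mod m)` for all `i`, `p_(j+o_k) ≤ p_j + C` and, for `i < i'`, `i ~ i'` in `G` if and only if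
`p_(j+o_i')` is a square modulo `p_(j+o_i)` -/
def Patterns (n e m k : ℕ) (A : Finset ℕ) (o : Fin (k + 1) → ℕ) :
    Set ((Fin (k + 1) → ℕ) × SimpleGraph (Fin (k + 1))) :=
  {x | (∀ i, x.1 i ∈ A) ∧ ∃ C : ℕ, {j : ℕ | 1 ≤ j ∧ j ≡ e [MOD n] ∧
    (∀ i, p (j + o i) ≡ x.1 i [MOD m]) ∧ p (j + o (Fin.last k)) ≤ p j + C ∧
    ∀ i i' : Fin (k + 1), i < i' → (x.2.Adj i i' ↔
      IsSquare ((p (j + o i') : ℕ) : ZMod (p (j + o i))))}.Infinite}

theorem result (n e m k : ℕ) (hn : 1 ≤ n) (hm : 1 ≤ m) (A : Finset ℕ) (hA : ∀ r ∈ A, r.Coprime m)
    (o : Fin (k + 1) → ℕ) (ho : StrictMono o) :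
    A.card ^ (k + 1) * 2 ^ ((k + 1).choose 2) ≤
      (40 * (2 * (o (Fin.last k) + n) + 1) * (o (Fin.last k) + n + 1)).choose (k + 1) *
        (Patterns n e m k A o).ncard :=
  Pool.Agent.R494.OT.patterns n e m k hn hm A hA o ho

end Pool.Agent.Results.MP_be93de_nt.OffsetTuples
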